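import Pool.Agent.H342R3.FS5

/-!
# A criterion for frequent hypercyclicity with approximate preimages of finite horizon
-/

set_option autoImplicit false

open Filter Topology Set H342R3.FS

namespace Pool.Agent.Q201.TR

variable {𝕜 E : Type*} [RCLike 𝕜] [NormedAddCommGroup E] [NormedSpace 𝕜 E] [CompleteSpace E]
  [TopologicalSpace.SeparableSpace E]

theorem half_bound {r a b : ℕ} (h : 2 * a + 2 * b ≤ r) : (1 / 2 : ℝ) ^ (r - a) ≤ (1 / 2) ^ b * (1 / 2) ^ (r / 2) := by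
  rw [← pow_add]
  exact pow_le_pow_of_le_one (by norm_num) (by norm_num) (by omega)

theorem half_div (r : ℕ) : (1 / 2 : ℝ) ^ (r / 2) ≤ 2 * (3 / 4) ^ r := by
  have h1 : (1 / 2 : ℝ) ^ (r / 2) ≤ (9 / 16) ^ (r / 2) :=
    pow_le_pow_left₀ (by norm_num) (by norm_num) _
  have h2 : (9 / 16 : ℝ) ^ (r / 2) = (3 / 4) ^ (2 * (r / 2)) := by
    rw [pow_mul]; norm_num
  have h3 : r = 2 * (r / 2) + r % 2 := by omega
  have h4 : (3 / 4 : ℝ) ^ r = (3 / 4) ^ (2 * (r / 2)) * (3 / 4) ^ (r % 2) := by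
    rw [← pow_add, ← h3]
  have h5 : (1 : ℝ) ≤ 2 * (3 / 4) ^ (r % 2) := by
    have : r % 2 = 0 ∨ r % 2 = 1 := by omega
    rcases this with h | h <;> rw [h] <;> norm_num
  have h6 : (0 : ℝ) < (3 / 4) ^ (2 * (r / 2)) := by positivity
  rw [h4]
  nlinarith

theorem crit (T : E →L[𝕜] E) (D : Set E) (hD : Dense D)
    (hP : ∀ τ ∈ D, ∀ ε : ℝ, 0 < ε → ∃ ν : ℕ, ∀ m : ℕ, ∃ w : E, ‖(T ^ m) w - τ‖ ≤ ε ∧
      (∀ n, n + ν ≤ m → ‖(T ^ n) w‖ ≤ ε * (1 / 2) ^ (m - n - ν)) ∧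
      (∀ n, m + ν ≤ n → ‖(T ^ n) w‖ ≤ ε * (1 / 2) ^ (n - m - ν))) :
    ∃ x : E, ∀ U : Set E, IsOpen U → U.Nonempty → LD {n | (T ^ n) x ∈ U} := by
  classical
  have hDne : Nonempty D := hD.nonempty.to_subtype
  have hsc : SecondCountableTopology E := UniformSpace.secondCountable_of_separable E
  obtain ⟨q, hq⟩ := TopologicalSpace.exists_dense_seq D
  have hqE : DenseRange fun k => (q k : E) := hD.denseRange_val.comp hq continuous_subtype_val
  -- the choices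
  have hch : ∀ s : ℕ, ∃ ν : ℕ, ∀ m : ℕ, ∃ w : E, ‖(T ^ m) w - q (Nat.unpair s).1‖ ≤ (1 / 2) ^ s ∧
      (∀ n, n + ν ≤ m → ‖(T ^ n) w‖ ≤ (1 / 2) ^ (m - n - ν)) ∧
      (∀ n, m + ν ≤ n → ‖(T ^ n) w‖ ≤ (1 / 2) ^ (n - m - ν)) := by
    intro s
    obtain ⟨ν, hν⟩ := hP _ (q (Nat.unpair s).1).2 ((1 / 2) ^ s) (by positivity)
    refine ⟨ν, fun m => ?_⟩
    obtain ⟨w, h1, h2, h3⟩ := hν m
    have hle : ((1 / 2 : ℝ)) ^ s ≤ 1 := pow_le_one₀ (by norm_num) (by norm_num)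
    refine ⟨w, h1, fun n hn => (h2 n hn).trans ?_, fun n hn => (h3 n hn).trans ?_⟩
    · exact mul_le_of_le_one_left (by positivity) hle
    · exact mul_le_of_le_one_left (by positivity) hle
  choose ν w hw1 hw2 hw3 using hch
  obtain ⟨I, hI1, hI2, hI3, hI4⟩ := sep_sets (fun s => 2 * ν s + 2 * s + 2)
  let W : ℕ → E := fun m => if h : ∃ s, m ∈ I s then w h.choose m else 0
  have hWs : ∀ s m, m ∈ I s → W m = w s m := by
    intro s m hm
    have h : ∃ s, m ∈ I s := ⟨s, hm⟩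
    simp only [W, dif_pos h]
    rw [hI4 _ _ _ h.choose_spec hm]
  have hW0 : ∀ m, (¬ ∃ s, m ∈ I s) → W m = 0 := by
    intro m hm
    simp only [W, dif_neg hm]
  -- bounds
  have hb0 : ∀ m, ‖W m‖ ≤ 2 * (3 / 4) ^ m := by
    intro m
    by_cases hm : ∃ s, m ∈ I s
    · obtain ⟨s, hs⟩ := hm
      have h1 := hI3 s m hs
      have h2 := hw2 s m 0 (by omega)
      rw [pow_zero] at h2
      change ‖w s m‖ ≤ _ at h2
      rw [hWs s m hs]
      refine h2.trans (le_trans ?_ (half_div m))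
      exact pow_le_pow_of_le_one (by norm_num) (by norm_num) (by omega)
    · rw [hW0 m hm, norm_zero]
      positivity
  have hbn : ∀ s' n, n ∈ I s' → ∀ m, m < n → ‖(T ^ n) (W m)‖ ≤ (1 / 2) ^ s' * (2 * (3 / 4) ^ (n - m)) := by
    intro s' n hn m hmn
    by_cases hm : ∃ s, m ∈ I s
    · obtain ⟨s, hs⟩ := hm
      have h1 := hI2 s s' m n hs hn hmn
      have h2 := hw3 s m n (by omega)
      rw [hWs s m hs]
      refine h2.trans ((half_bound (b := s') (by omega)).trans ?_)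
      gcongr
      exact half_div _
    · rw [hW0 m hm, map_zero, norm_zero]
      positivity
  have hbn' : ∀ s' n, n ∈ I s' → ∀ m, n < m → ‖(T ^ n) (W m)‖ ≤ (1 / 2) ^ s' * (2 * (3 / 4) ^ (m - n)) := by
    intro s' n hn m hmn
    by_cases hm : ∃ s, m ∈ I s
    · obtain ⟨s, hs⟩ := hm
      have h1 := hI2 s' s n m hn hs hmn
      have h2 := hw2 s m n (by omega)
      rw [hWs s m hs]
      refine h2.trans ((half_bound (b := s') (by omega)).trans ?_)
      gcongr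
      exact half_div _
    · rw [hW0 m hm, map_zero, norm_zero]
      positivity
  have hsum : Summable W :=
    Summable.of_norm_bounded ((summable_geometric_of_lt_one (by norm_num) (by norm_num)).mul_left 2) hb0
  refine ⟨∑' m, W m, fun U hU hUne => ?_⟩
  obtain ⟨y, hy⟩ := hUne
  obtain ⟨r, hr, hball⟩ := Metric.isOpen_iff.1 hU y hy
  obtain ⟨k, hk⟩ := hqE.exists_dist_lt y (half_pos hr)
  obtain ⟨l, hl⟩ := exists_pow_lt_of_lt_one (show (0 : ℝ) < r / 34 by positivity)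
    (show (1 / 2 : ℝ) < 1 by norm_num)
  set s := Nat.pair k l with hs
  have hsl : l ≤ s := Nat.right_le_pair k l
  have hsmall : (1 / 2 : ℝ) ^ s < r / 34 :=
    lt_of_le_of_lt (pow_le_pow_of_le_one (by norm_num) (by norm_num) hsl) hl
  have hsq : (Nat.unpair s).1 = k := by rw [hs, Nat.unpair_pair]
  refine LD_mono (A := I s) (fun n hn => ?_) (hI1 s)
  -- the visit
  have e1 : ∑' m, W m = (∑ m ∈ Finset.range n, W m) + (W n + ∑' m, W (m + (n + 1))) := by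
    rw [← hsum.sum_add_tsum_nat_add (n + 1), Finset.sum_range_succ, add_assoc]
  have hsum2 : Summable fun m => W (m + (n + 1)) := (summable_nat_add_iff (n + 1)).2 hsum
  have e2 : (T ^ n) (∑' m, W m) - q k = (∑ m ∈ Finset.range n, (T ^ n) (W m)) +
      (((T ^ n) (W n) - q k) + ∑' m, (T ^ n) (W (m + (n + 1)))) := by
    rw [e1, map_add, map_add, map_sum, ContinuousLinearMap.map_tsum _ hsum2]
    abel
  have h1 : ‖(T ^ n) (W n) - q k‖ ≤ (1 / 2) ^ s := by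
    rw [hWs s n hn, ← hsq]
    exact hw1 s n
  have hgs := hasSum_geometric_of_lt_one (show (0 : ℝ) ≤ 3 / 4 by norm_num)
    (show (3 / 4 : ℝ) < 1 by norm_num)
  have h2 : ‖∑' m, (T ^ n) (W (m + (n + 1)))‖ ≤ (1 / 2) ^ s * 2 * (1 - 3 / 4)⁻¹ := by
    refine tsum_of_norm_bounded (hgs.mul_left ((1 / 2) ^ s * 2)) fun m => ?_
    refine (hbn' s n hn _ (by omega)).trans ?_
    rw [mul_assoc]
    gcongr (1 / 2) ^ s * (2 * ?_)
    exact pow_le_pow_of_le_one (by norm_num) (by norm_num) (by omega)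
  have h3 : ‖∑ m ∈ Finset.range n, (T ^ n) (W m)‖ ≤ (1 / 2) ^ s * 2 * (1 - 3 / 4)⁻¹ := by
    refine (norm_sum_le _ _).trans ?_
    calc ∑ m ∈ Finset.range n, ‖(T ^ n) (W m)‖
        ≤ ∑ m ∈ Finset.range n, (1 / 2 : ℝ) ^ s * 2 * (3 / 4) ^ (n - 1 - m) := by
          refine Finset.sum_le_sum fun m hm => ?_
          rw [Finset.mem_range] at hm
          refine (hbn s n hn m hm).trans ?_
          rw [mul_assoc]
          gcongr (1 / 2) ^ s * (2 * ?_)
          exact pow_le_pow_of_le_one (by norm_num) (by norm_num) (by omega)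
      _ = (1 / 2 : ℝ) ^ s * 2 * ∑ m ∈ Finset.range n, (3 / 4) ^ m := by
          rw [← Finset.mul_sum, Finset.sum_range_reflect (fun m => (3 / 4 : ℝ) ^ m) n]
      _ ≤ (1 / 2 : ℝ) ^ s * 2 * (1 - 3 / 4)⁻¹ := by
          gcongr
          exact sum_le_hasSum _ (fun _ _ => by positivity) hgs
  have h4 : ‖(T ^ n) (∑' m, W m) - q k‖ < r / 2 := by
    rw [e2]
    have := norm_add_le (∑ m ∈ Finset.range n, (T ^ n) (W m))
      (((T ^ n) (W n) - q k) + ∑' m, (T ^ n) (W (m + (n + 1))))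
    have h5 := norm_add_le ((T ^ n) (W n) - (q k : E)) (∑' m, (T ^ n) (W (m + (n + 1))))
    have e4 : ((1 : ℝ) - 3 / 4)⁻¹ = 4 := by norm_num
    rw [e4] at h2 h3
    linarith
  apply hball
  rw [Metric.mem_ball, dist_eq_norm]
  have h5 : (T ^ n) (∑' m, W m) - y = ((T ^ n) (∑' m, W m) - q k) + (q k - y) := by abel
  rw [h5]
  refine (norm_add_le _ _).trans_lt ?_
  rw [← dist_eq_norm (q k : E) y, dist_comm]
  linarith

end Pool.Agent.Q201.TR
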