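import Pool.Agent.Helper932.FHCMain

/-!
# The tree and the vectors
-/

set_option autoImplicit false

open Filter Topology Set
open Pool.Agent.Helper932.FHC (E e e_apply norm_e norm_eq_tsum exists_clm clm_norm_le clm_congr
  summable_norm_coord hasSum_e)

namespace Pool.Agent.Q201.TR

/-- the parent of the vertex `k ≥ 1` -/
def par (k : ℕ) : ℕ := (Nat.unpair (Nat.unpair (k - 1)).1).1

/-- the delay of the vertex `k ≥ 1` -/
def off (k : ℕ) : ℕ := (Nat.unpair (Nat.unpair (k - 1)).1).2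

/-- the return time -/
def rt (k : ℕ) : ℕ := 2 * (4 * 8 ^ k)

/-- the switching time -/
def sw (k : ℕ) : ℕ := 2 * (4 * 8 ^ (par k) + 1 + off k)

/-- the bottom of the valley -/
def bt (k : ℕ) : ℕ := 4 * 8 ^ (par k) + 1 + off k + 4 * 8 ^ k

theorem par_lt {k : ℕ} (hk : 1 ≤ k) : par k < k := by
  have h1 := Nat.unpair_left_le (Nat.unpair (k - 1)).1
  have h2 := Nat.unpair_left_le (k - 1)
  unfold par
  omega

theorem off_le (k : ℕ) : off k ≤ k := by
  have h1 := Nat.unpair_right_le (Nat.unpair (k - 1)).1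
  have h2 := Nat.unpair_left_le (k - 1)
  unfold off
  omega

theorem k_lt (k : ℕ) : k < 8 ^ k := Nat.lt_pow_self (by norm_num)

theorem sw_lt_rt {k : ℕ} (hk : 1 ≤ k) : sw k < rt k := by
  have h1 := par_lt hk
  have h2 := off_le k
  have h3 := k_lt k
  have h4 : 8 ^ (par k + 1) ≤ 8 ^ k := Nat.pow_le_pow_right (by norm_num) h1
  rw [pow_succ] at h4
  unfold sw rt
  omega

theorem sw_lt_bt {k : ℕ} (hk : 1 ≤ k) : sw k < bt k := by
  have := sw_lt_rt hk
  unfold sw rt at this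
  unfold sw bt
  omega

theorem bt_lt_rt {k : ℕ} (hk : 1 ≤ k) : bt k < rt k := by
  have := sw_lt_rt hk
  unfold sw rt at this
  unfold bt rt
  omega

theorem sym (k : ℕ) : bt k + bt k = sw k + rt k := by
  unfold bt sw rt
  ring

theorem rt_lt_sw (k : ℕ) : rt (par k) < sw k := by
  unfold rt sw
  omega

theorem le_bt (k : ℕ) : k ≤ bt k := by
  have := k_lt k
  unfold bt
  omega

theorem rt_inj {k l : ℕ} (h : rt k = rt l) : k = l := by
  unfold rt at h
  exact Nat.pow_right_injective (le_refl 2 |>.trans (by norm_num : 2 ≤ 8)) (by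
    show 8 ^ k = 8 ^ l
    omega)

/-- every vertex has children with given delay and arbitrarily large label -/
theorem child (p a M : ℕ) : ∃ k, 1 ≤ k ∧ M ≤ k ∧ par k = p ∧ off k = a := by
  refine ⟨Nat.pair (Nat.pair p a) M + 1, by omega, ?_, ?_, ?_⟩
  · have := Nat.right_le_pair (Nat.pair p a) M
    omega
  · simp [par]
  · simp [off]

variable {𝕜 : Type} [RCLike 𝕜]

/-- weights -/
noncomputable def lam (n j : ℕ) : ℝ :=
  if j = 0 then 1 else if n < sw j then 1 / 2 else if n = sw j then -1 else if n ≤ bt j then 2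
    else if n ≤ rt j then 1 / 2 else 1

/-- size of the vector of the vertex `j` at the time `n ≥ sw j` -/
noncomputable def om (n j : ℕ) : ℝ :=
  if n ≤ bt j then (1 / 2) ^ (n - sw j) else (1 / 2) ^ (rt j - n)

/-- the image of `e j` under `S n` -/
noncomputable def vv (𝕜 : Type) [RCLike 𝕜] (n j : ℕ) : E 𝕜 :=
  ((lam n j : ℝ) : 𝕜) • e 𝕜 j + if 1 ≤ j ∧ sw j = n then e 𝕜 (par j) else 0

/-- the image of `e j` under the inverse of `S n` -/
noncomputable def vi (𝕜 : Type) [RCLike 𝕜] (n j : ℕ) : E 𝕜 :=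
  (((lam n j)⁻¹ : ℝ) : 𝕜) • e 𝕜 j + if 1 ≤ j ∧ sw j = n then e 𝕜 (par j) else 0

theorem lam_abs (n j : ℕ) : |lam n j| ≤ 2 ∧ |(lam n j)⁻¹| ≤ 2 ∧ lam n j ≠ 0 := by
  unfold lam
  split_ifs <;> norm_num

theorem lam_late {n j : ℕ} (h : rt j < n) : lam n j = 1 := by
  unfold lam
  by_cases hj : j = 0
  · rw [if_pos hj]
  · have h1 := sw_lt_rt (k := j) (by omega)
    have h2 := bt_lt_rt (k := j) (by omega)
    rw [if_neg hj, if_neg (by omega), if_neg (by omega), if_neg (by omega), if_neg (by omega)]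

theorem norm_vv (n j : ℕ) : ‖vv 𝕜 n j‖ ≤ 3 := by
  unfold vv
  refine (norm_add_le _ _).trans ?_
  rw [norm_smul, norm_e, mul_one, RCLike.norm_ofReal]
  have h1 := (lam_abs n j).1
  split_ifs
  · rw [norm_e]; linarith
  · rw [norm_zero]; linarith

theorem norm_vi (n j : ℕ) : ‖vi 𝕜 n j‖ ≤ 3 := by
  unfold vi
  refine (norm_add_le _ _).trans ?_
  rw [norm_smul, norm_e, mul_one, RCLike.norm_ofReal]
  have h1 := (lam_abs n j).2.1
  split_ifs
  · rw [norm_e]; linarith
  · rw [norm_zero]; linarith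

/-- `S n` for `n ≥ 1` -/
noncomputable def Sp (𝕜 : Type) [RCLike 𝕜] (n : ℕ) : E 𝕜 →L[𝕜] E 𝕜 :=
  Classical.choose (exists_clm (fun j => vv 𝕜 n j) 3 (norm_vv n))

/-- its inverse -/
noncomputable def Si (𝕜 : Type) [RCLike 𝕜] (n : ℕ) : E 𝕜 →L[𝕜] E 𝕜 :=
  Classical.choose (exists_clm (fun j => vi 𝕜 n j) 3 (norm_vi n))

theorem Sp_e (n j : ℕ) : Sp 𝕜 n (e 𝕜 j) = vv 𝕜 n j :=
  Classical.choose_spec (exists_clm (fun j => vv 𝕜 n j) 3 (norm_vv n)) j

theorem Si_e (n j : ℕ) : Si 𝕜 n (e 𝕜 j) = vi 𝕜 n j :=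
  Classical.choose_spec (exists_clm (fun j => vi 𝕜 n j) 3 (norm_vi n)) j

theorem Sp_norm (n : ℕ) (x : E 𝕜) : ‖Sp 𝕜 n x‖ ≤ 3 * ‖x‖ :=
  clm_norm_le _ x 3 fun j _ => by rw [Sp_e]; exact norm_vv n j

theorem Si_norm (n : ℕ) (x : E 𝕜) : ‖Si 𝕜 n x‖ ≤ 3 * ‖x‖ :=
  clm_norm_le _ x 3 fun j _ => by rw [Si_e]; exact norm_vi n j

theorem lam_sw {j : ℕ} (hj : 1 ≤ j) : lam (sw j) j = -1 := by
  unfold lam
  rw [if_neg (by omega), if_neg (lt_irrefl _), if_pos rfl]

/-- at the switching time of `j` the parent is fixed -/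
theorem par_fixed {j : ℕ} (hj : 1 ≤ j) : vv 𝕜 (sw j) (par j) = e 𝕜 (par j) ∧
    vi 𝕜 (sw j) (par j) = e 𝕜 (par j) := by
  have h1 := rt_lt_sw j
  have h2 : lam (sw j) (par j) = 1 := lam_late h1
  have h3 : ¬ (1 ≤ par j ∧ sw (par j) = sw j) := by
    rintro ⟨h4, h5⟩
    have := sw_lt_rt h4
    omega
  unfold vv vi
  rw [h2, if_neg h3]
  simp

theorem Si_Sp (n : ℕ) (x : E 𝕜) : Si 𝕜 n (Sp 𝕜 n x) = x := by
  have := clm_congr (Si 𝕜 n ∘L Sp 𝕜 n) (ContinuousLinearMap.id 𝕜 (E 𝕜)) x fun j _ => by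
    rw [ContinuousLinearMap.comp_apply, Sp_e]
    show Si 𝕜 n (vv 𝕜 n j) = e 𝕜 j
    by_cases h : 1 ≤ j ∧ sw j = n
    · obtain ⟨h1, rfl⟩ := h
      have e1 : vv 𝕜 (sw j) j = -e 𝕜 j + e 𝕜 (par j) := by
        unfold vv
        rw [lam_sw h1, if_pos ⟨h1, rfl⟩]
        simp
      have e2 : vi 𝕜 (sw j) j = -e 𝕜 j + e 𝕜 (par j) := by
        unfold vi
        rw [lam_sw h1, if_pos ⟨h1, rfl⟩]
        norm_num
      rw [e1, map_add, map_neg, Si_e, Si_e, e2, (par_fixed h1).2]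
      abel
    · unfold vv
      rw [if_neg h, add_zero, map_smul, Si_e]
      unfold vi
      rw [if_neg h, add_zero, smul_smul, ← RCLike.ofReal_mul, mul_inv_cancel₀ (lam_abs n j).2.2,
        RCLike.ofReal_one, one_smul]
  exact this

theorem Sp_Si (n : ℕ) (x : E 𝕜) : Sp 𝕜 n (Si 𝕜 n x) = x := by
  have := clm_congr (Sp 𝕜 n ∘L Si 𝕜 n) (ContinuousLinearMap.id 𝕜 (E 𝕜)) x fun j _ => by
    rw [ContinuousLinearMap.comp_apply, Si_e]
    show Sp 𝕜 n (vi 𝕜 n j) = e 𝕜 j
    by_cases h : 1 ≤ j ∧ sw j = n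
    · obtain ⟨h1, rfl⟩ := h
      have e1 : vv 𝕜 (sw j) j = -e 𝕜 j + e 𝕜 (par j) := by
        unfold vv
        rw [lam_sw h1, if_pos ⟨h1, rfl⟩]
        simp
      have e2 : vi 𝕜 (sw j) j = -e 𝕜 j + e 𝕜 (par j) := by
        unfold vi
        rw [lam_sw h1, if_pos ⟨h1, rfl⟩]
        norm_num
      rw [e2, map_add, map_neg, Sp_e, Sp_e, e1, (par_fixed h1).1]
      abel
    · unfold vi
      rw [if_neg h, add_zero, map_smul, Sp_e]
      unfold vv
      rw [if_neg h, add_zero, smul_smul, ← RCLike.ofReal_mul, inv_mul_cancel₀ (lam_abs n j).2.2,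
        RCLike.ofReal_one, one_smul]
  exact this

/-! ### the vectors -/

/-- the vector of the vertex `j` at the time `n ≥ 0` -/
noncomputable def G (𝕜 : Type) [RCLike 𝕜] (n j : ℕ) : E 𝕜 :=
  if h : j = 0 then e 𝕜 0 else
    if sw j ≤ n then ((om n j : ℝ) : 𝕜) • e 𝕜 j
    else G 𝕜 n (par j) - (((1 / 2 : ℝ) ^ (sw j - 1 - n) : ℝ) : 𝕜) • e 𝕜 j
termination_by j
decreasing_by exact par_lt (Nat.pos_of_ne_zero h)

theorem G_zero (n : ℕ) : G 𝕜 n 0 = e 𝕜 0 := by
  rw [G, dif_pos rfl]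

theorem G_late {n j : ℕ} (hj : 1 ≤ j) (h : sw j ≤ n) : G 𝕜 n j = ((om n j : ℝ) : 𝕜) • e 𝕜 j := by
  rw [G, dif_neg (by omega), if_pos h]

theorem G_early {n j : ℕ} (hj : 1 ≤ j) (h : n < sw j) :
    G 𝕜 n j = G 𝕜 n (par j) - (((1 / 2 : ℝ) ^ (sw j - 1 - n) : ℝ) : 𝕜) • e 𝕜 j := by
  rw [G, dif_neg (by omega), if_neg (by omega)]

/-- at the time just before the switching of `j` the parent is itself -/
theorem G_par {j : ℕ} (hj : 1 ≤ j) : G 𝕜 (sw j - 1) (par j) = e 𝕜 (par j) := by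
  by_cases h0 : par j = 0
  · rw [h0, G_zero]
  · have h1 := rt_lt_sw j
    have h2 := sw_lt_rt (k := par j) (by omega)
    have h3 := bt_lt_rt (k := par j) (by omega)
    rw [G_late (by omega) (by omega)]
    unfold om
    rw [if_neg (by omega)]
    have e1 : rt (par j) - (sw j - 1) = 0 := by omega
    rw [e1, pow_zero, RCLike.ofReal_one, one_smul]

theorem om_step {n j : ℕ} (hj : 1 ≤ j) (h : sw j ≤ n) : om (n + 1) j * lam (n + 1) j = om n j := by
  have h1 := sw_lt_bt hj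
  have h2 := bt_lt_rt hj
  have h3 := sym j
  unfold om lam
  rw [if_neg (by omega : ¬ j = 0), if_neg (by omega : ¬ n + 1 < sw j),
    if_neg (by omega : ¬ n + 1 = sw j)]
  by_cases hb : n + 1 ≤ bt j
  · rw [if_pos hb, if_pos hb, if_pos (by omega)]
    have e1 : n + 1 - sw j = (n - sw j) + 1 := by omega
    rw [e1, pow_succ]
    ring
  · rw [if_neg hb, if_neg hb]
    by_cases hr : n + 1 ≤ rt j
    · rw [if_pos hr]
      by_cases hb2 : n ≤ bt j
      · rw [if_pos hb2]
        have e2 : n = bt j := by omega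
        have e1 : n - sw j = (rt j - (n + 1)) + 1 := by omega
        rw [e1, pow_succ]
      · rw [if_neg hb2]
        have e1 : rt j - n = (rt j - (n + 1)) + 1 := by omega
        rw [e1, pow_succ]
    · rw [if_neg hr, if_neg (by omega)]
      have e1 : rt j - n = 0 := by omega
      have e2 : rt j - (n + 1) = 0 := by omega
      rw [e1, e2, mul_one]

theorem Sp_G (n j : ℕ) : Sp 𝕜 (n + 1) (G 𝕜 (n + 1) j) = G 𝕜 n j := by
  induction j using Nat.strong_induction_on with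
  | _ j ih =>
    by_cases h0 : j = 0
    · subst h0
      rw [G_zero, G_zero, Sp_e]
      unfold vv lam
      simp
    · have hj : 1 ≤ j := by omega
      by_cases h1 : sw j ≤ n
      · rw [G_late hj (by omega), G_late hj h1, map_smul, Sp_e]
        unfold vv
        rw [if_neg (by omega), add_zero, smul_smul, ← RCLike.ofReal_mul, om_step hj h1]
      · by_cases h2 : sw j = n + 1
        · rw [G_late hj h2.le, G_early hj (by omega), map_smul, Sp_e]
          have e1 : om (n + 1) j = 1 := by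
            have := sw_lt_bt hj
            unfold om
            rw [if_pos (by omega)]
            have : n + 1 - sw j = 0 := by omega
            rw [this, pow_zero]
          have e2 : sw j - 1 - n = 0 := by omega
          have e3 : n = sw j - 1 := by omega
          rw [e1, e2, pow_zero, RCLike.ofReal_one, one_smul, one_smul]
          have e4 : G 𝕜 n (par j) = e 𝕜 (par j) := by rw [e3]; exact G_par hj
          rw [e4, ← h2]
          unfold vv
          rw [lam_sw hj, if_pos ⟨hj, rfl⟩]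
          simp
          abel
        · rw [G_early hj (by omega), G_early hj (by omega), map_sub, ih _ (par_lt hj), map_smul,
            Sp_e]
          unfold vv
          rw [if_neg (by omega), add_zero, smul_smul, ← RCLike.ofReal_mul]
          have e1 : lam (n + 1) j = 1 / 2 := by
            unfold lam
            rw [if_neg h0, if_pos (by omega)]
          have e2 : sw j - 1 - n = (sw j - 1 - (n + 1)) + 1 := by omega
          rw [e1, e2, pow_succ]

end Pool.Agent.Q201.TR
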