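import Pool.Agent.Q201.TR.B

/-!
# The shift operator
-/

set_option autoImplicit false

open Filter Topology Set
open Pool.Agent.Helper932.FHC (E e e_apply norm_e norm_eq_tsum exists_clm clm_norm_le clm_congr
  summable_norm_coord hasSum_e)

namespace Pool.Agent.Q201.TR

variable {𝕜 : Type} [RCLike 𝕜]

/-- `ℓ¹(ℤ, ℓ¹(ℕ))` -/
abbrev Y (𝕜 : Type) [RCLike 𝕜] : Type := lp (fun _ : ℤ => E 𝕜) 1

theorem Y_summable (x : Y 𝕜) : Summable fun n => ‖x n‖ := by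
  have h := (lp.hasSum_norm (p := 1) (by simp) x).summable
  simpa using h

theorem Y_norm (x : Y 𝕜) : ‖x‖ = ∑' n, ‖x n‖ := by
  have h := lp.norm_eq_tsum_rpow (p := 1) (by simp) x
  simpa using h

theorem Y_mem {f : ℤ → E 𝕜} (h : Summable fun n => ‖f n‖) : Memℓp f 1 := by
  refine memℓp_gen ?_
  simpa using h

/-- the shift operator of a bounded family -/
theorem exists_shift (A : ℤ → E 𝕜 →L[𝕜] E 𝕜) (hA : ∀ n x, ‖A n x‖ ≤ 3 * ‖x‖) :
    ∃ σ : Y 𝕜 →L[𝕜] Y 𝕜, ∀ x n, σ x n = A (n + 1) (x (n + 1)) := by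
  have hs : ∀ x : Y 𝕜, Summable fun n : ℤ => ‖x (n + 1)‖ := fun x =>
    (Y_summable x).comp_injective (add_left_injective 1)
  have hm : ∀ x : Y 𝕜, Summable fun n : ℤ => ‖A (n + 1) (x (n + 1))‖ := fun x =>
    Summable.of_nonneg_of_le (fun _ => norm_nonneg _) (fun n => hA _ _) ((hs x).mul_left 3)
  let L : Y 𝕜 →ₗ[𝕜] Y 𝕜 :=
    { toFun := fun x => ⟨fun n => A (n + 1) (x (n + 1)), Y_mem (hm x)⟩
      map_add' := fun x y => by
        ext1; funext n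
        show A (n + 1) ((x + y : Y 𝕜) (n + 1)) = _
        rw [lp.coeFn_add, Pi.add_apply, map_add]
        rfl
      map_smul' := fun c x => by
        ext1; funext n
        show A (n + 1) ((c • x : Y 𝕜) (n + 1)) = _
        rw [lp.coeFn_smul, Pi.smul_apply, map_smul]
        rfl }
  refine ⟨L.mkContinuous 3 fun x => ?_, fun x n => rfl⟩
  rw [Y_norm, Y_norm, ← tsum_mul_left]
  have h1 : ∑' n : ℤ, 3 * ‖x n‖ = ∑' n : ℤ, 3 * ‖x (n + 1)‖ :=
    ((Equiv.addRight (1 : ℤ)).tsum_eq fun n => 3 * ‖x n‖).symm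
  rw [h1]
  exact (hm x).tsum_le_tsum (fun n => hA _ _) ((hs x).mul_left 3)

/-- `S n` for all integers `n` -/
noncomputable def SS (𝕜 : Type) [RCLike 𝕜] (q : ℤ) : E 𝕜 ≃L[𝕜] E 𝕜 :=
  if 1 ≤ q then ContinuousLinearEquiv.equivOfInverse (Sp 𝕜 q.toNat) (Si 𝕜 q.toNat)
    (Si_Sp q.toNat) (Sp_Si q.toNat)
  else ContinuousLinearEquiv.equivOfInverse ((1 / 2 : 𝕜) • ContinuousLinearMap.id 𝕜 (E 𝕜))
    ((2 : 𝕜) • ContinuousLinearMap.id 𝕜 (E 𝕜))
    (fun x => by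
      show (2 : 𝕜) • ((1 / 2 : 𝕜) • x) = x
      rw [smul_smul]; norm_num)
    (fun x => by
      show (1 / 2 : 𝕜) • ((2 : 𝕜) • x) = x
      rw [smul_smul]; norm_num)

theorem SS_pos {q : ℤ} (h : 1 ≤ q) (x : E 𝕜) : SS 𝕜 q x = Sp 𝕜 q.toNat x := by
  unfold SS
  rw [if_pos h]
  rfl

theorem SS_pos_symm {q : ℤ} (h : 1 ≤ q) (x : E 𝕜) : (SS 𝕜 q).symm x = Si 𝕜 q.toNat x := by
  unfold SS
  rw [if_pos h]
  rfl

theorem SS_neg {q : ℤ} (h : q ≤ 0) (x : E 𝕜) : SS 𝕜 q x = (1 / 2 : 𝕜) • x := by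
  unfold SS
  rw [if_neg (by omega)]
  rfl

theorem SS_neg_symm {q : ℤ} (h : q ≤ 0) (x : E 𝕜) : (SS 𝕜 q).symm x = (2 : 𝕜) • x := by
  unfold SS
  rw [if_neg (by omega)]
  rfl

theorem SS_norm (q : ℤ) (x : E 𝕜) : ‖SS 𝕜 q x‖ ≤ 3 * ‖x‖ := by
  rcases le_or_gt 1 q with h | h
  · rw [SS_pos h]; exact Sp_norm _ _
  · rw [SS_neg (by omega), norm_smul]
    have : ‖(1 / 2 : 𝕜)‖ = 1 / 2 := by
      rw [norm_div, norm_one, RCLike.norm_ofNat]
    rw [this]
    nlinarith [norm_nonneg x]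

theorem SS_norm_symm (q : ℤ) (x : E 𝕜) : ‖(SS 𝕜 q).symm x‖ ≤ 3 * ‖x‖ := by
  rcases le_or_gt 1 q with h | h
  · rw [SS_pos_symm h]; exact Si_norm _ _
  · rw [SS_neg_symm (by omega), norm_smul, RCLike.norm_ofNat]
    nlinarith [norm_nonneg x]

/-- the vector of the vertex `j` at the time `q` -/
noncomputable def Gz (𝕜 : Type) [RCLike 𝕜] (q : ℤ) (j : ℕ) : E 𝕜 :=
  (((1 / 2 : ℝ) ^ (-q).toNat : ℝ) : 𝕜) • G 𝕜 q.toNat j

theorem SS_Gz (q : ℤ) (j : ℕ) : SS 𝕜 q (Gz 𝕜 q j) = Gz 𝕜 (q - 1) j := by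
  rcases le_or_gt 1 q with h | h
  · rw [SS_pos h]
    unfold Gz
    have e1 : (-q).toNat = 0 := by omega
    have e2 : (-(q - 1)).toNat = 0 := by omega
    have e3 : q.toNat = (q - 1).toNat + 1 := by omega
    rw [e1, e2, e3, pow_zero, RCLike.ofReal_one, one_smul, one_smul, Sp_G]
  · rw [SS_neg (by omega)]
    unfold Gz
    have e1 : (-(q - 1)).toNat = (-q).toNat + 1 := by omega
    have e2 : q.toNat = 0 := by omega
    have e3 : (q - 1).toNat = 0 := by omega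
    rw [e1, e2, e3, smul_smul, pow_succ]
    congr 1
    push_cast
    ring

theorem single_apply' (q n : ℤ) (v : E 𝕜) :
    (lp.single 1 q v : Y 𝕜) n = if n = q then v else 0 := by
  rw [lp.single_apply]
  by_cases h : n = q
  · subst h; rw [Pi.single_eq_same, if_pos rfl]
  · rw [Pi.single_eq_of_ne h, if_neg h]

theorem single_norm (q : ℤ) (v : E 𝕜) : ‖(lp.single 1 q v : Y 𝕜)‖ = ‖v‖ := by
  rw [Y_norm, tsum_eq_single q]
  · rw [single_apply', if_pos rfl]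
  · intro n hn
    rw [single_apply', if_neg hn, norm_zero]

variable {σ : Y 𝕜 →L[𝕜] Y 𝕜} (hσ : ∀ x n, σ x n = SS 𝕜 (n + 1) (x (n + 1)))

include hσ in
theorem sig_single (q : ℤ) (v : E 𝕜) :
    σ (lp.single 1 q v) = lp.single 1 (q - 1) (SS 𝕜 q v) := by
  ext1; funext n
  rw [hσ, single_apply', single_apply']
  by_cases h : n + 1 = q
  · rw [if_pos h, if_pos (by omega), h]
  · rw [if_neg h, if_neg (by omega), map_zero]

include hσ in
theorem sig_pow (n : ℕ) (q : ℤ) (j : ℕ) :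
    (σ ^ n) (lp.single 1 q (Gz 𝕜 q j)) = lp.single 1 (q - n) (Gz 𝕜 (q - n) j) := by
  induction n with
  | zero => simp
  | succ n ih =>
    rw [pow_succ']
    change σ ((σ ^ n) (lp.single 1 q (Gz 𝕜 q j))) = _
    rw [ih, sig_single hσ, SS_Gz]
    have : q - (n : ℤ) - 1 = q - ((n + 1 : ℕ) : ℤ) := by push_cast; ring
    rw [this]

/-! ### norms of the vectors -/

theorem G0_norm (j : ℕ) : ‖G 𝕜 0 j‖ ≤ 1 + j := by
  induction j using Nat.strong_induction_on with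
  | _ j ih =>
    by_cases h0 : j = 0
    · subst h0
      rw [G_zero, norm_e]
      simp
    · have hj : 1 ≤ j := by omega
      have hp := par_lt hj
      have h1 : 0 < sw j := by unfold sw; omega
      rw [G_early hj h1]
      refine (norm_sub_le _ _).trans ?_
      rw [norm_smul, norm_e, RCLike.norm_ofReal, mul_one, abs_of_nonneg (by positivity)]
      have h2 : ((1 / 2 : ℝ)) ^ (sw j - 1 - 0) ≤ 1 := pow_le_one₀ (by norm_num) (by norm_num)
      have h3 := ih _ hp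
      have h4 : ((par j : ℕ) : ℝ) + 1 ≤ j := by exact_mod_cast hp
      linarith

theorem Gz_child_norm {k : ℕ} (hk : 1 ≤ k) (q : ℤ) (h : q.toNat < sw k) :
    ‖Gz 𝕜 q k - Gz 𝕜 q (par k)‖ ≤ (1 / 2) ^ (sw k - 1 - q.toNat) := by
  unfold Gz
  rw [G_early hk h, ← smul_sub, sub_sub_cancel_left, smul_neg, norm_neg, norm_smul, norm_smul, norm_e,
    RCLike.norm_ofReal, RCLike.norm_ofReal, mul_one, abs_of_nonneg (by positivity),
    abs_of_nonneg (by positivity)]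
  exact mul_le_of_le_one_left (by positivity) (pow_le_one₀ (by norm_num) (by norm_num))

theorem Gz_valley {k : ℕ} (hk : 1 ≤ k) (q : ℤ) (h1 : (sw k : ℤ) ≤ q) (h2 : q ≤ bt k) :
    ‖Gz 𝕜 q k‖ = (1 / 2) ^ (q.toNat - sw k) := by
  unfold Gz
  have e1 : (-q).toNat = 0 := by omega
  rw [e1, pow_zero, RCLike.ofReal_one, one_smul, G_late hk (by omega), norm_smul, norm_e, mul_one,
    RCLike.norm_ofReal]
  unfold om
  rw [if_pos (by omega), abs_of_nonneg (by positivity)]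

theorem Gz_neg {k : ℕ} (hk : 1 ≤ k) (q : ℤ) (h1 : q ≤ 0) :
    ‖Gz 𝕜 q k‖ ≤ (1 / 2) ^ (-q).toNat * (2 + par k) := by
  unfold Gz
  have e1 : q.toNat = 0 := by omega
  rw [e1, norm_smul, RCLike.norm_ofReal, abs_of_nonneg (by positivity)]
  gcongr
  have h0 : 0 < sw k := by unfold sw; omega
  rw [G_early hk h0]
  refine (norm_sub_le _ _).trans ?_
  rw [norm_smul, norm_e, RCLike.norm_ofReal, mul_one, abs_of_nonneg (by positivity)]
  have h2 : ((1 / 2 : ℝ)) ^ (sw k - 1 - 0) ≤ 1 := pow_le_one₀ (by norm_num) (by norm_num)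
  have h3 := G0_norm (𝕜 := 𝕜) (par k)
  linarith

end Pool.Agent.Q201.TR
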