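import Pool.Agent.Q201.TR.A
import Pool.Agent.Q201.TR.C

/-!
# Frequent hypercyclicity
-/

set_option autoImplicit false

open Filter Topology Set
open Pool.Agent.Helper932.FHC (E e e_apply norm_e norm_eq_tsum exists_clm clm_norm_le clm_congr
  summable_norm_coord hasSum_e)

namespace Pool.Agent.Q201.TR

variable {𝕜 : Type} [RCLike 𝕜]

/-- the embedding of the coordinate `q` -/
noncomputable def sg (𝕜 : Type) [RCLike 𝕜] (q : ℤ) : E 𝕜 →L[𝕜] Y 𝕜 :=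
  LinearMap.mkContinuous
    { toFun := fun v => (lp.single 1 q v : Y 𝕜)
      map_add' := fun v w => by
        ext1; funext n
        rw [lp.coeFn_add, Pi.add_apply, single_apply', single_apply', single_apply']
        split_ifs <;> simp
      map_smul' := fun c v => by
        ext1; funext n
        rw [lp.coeFn_smul, Pi.smul_apply, single_apply', single_apply']
        split_ifs <;> simp } 1
    (fun v => by
      show ‖(lp.single 1 q v : Y 𝕜)‖ ≤ 1 * ‖v‖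
      rw [single_norm, one_mul])

theorem sg_eq (q : ℤ) (v : E 𝕜) : sg 𝕜 q v = lp.single 1 q v := rfl

theorem sg_norm (q : ℤ) (v : E 𝕜) : ‖sg 𝕜 q v‖ = ‖v‖ := single_norm q v

/-- approximate preimages -/
def Pr (σ : Y 𝕜 →L[𝕜] Y 𝕜) (τ : Y 𝕜) : Prop :=
  ∀ ε : ℝ, 0 < ε → ∃ ν : ℕ, ∀ m : ℕ, ∃ w : Y 𝕜, ‖(σ ^ m) w - τ‖ ≤ ε ∧
      (∀ n, n + ν ≤ m → ‖(σ ^ n) w‖ ≤ ε * (1 / 2) ^ (m - n - ν)) ∧
      (∀ n, m + ν ≤ n → ‖(σ ^ n) w‖ ≤ ε * (1 / 2) ^ (n - m - ν))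

theorem Pr_zero (σ : Y 𝕜 →L[𝕜] Y 𝕜) : Pr σ 0 := by
  intro ε hε
  refine ⟨0, fun m => ⟨0, ?_, fun n _ => ?_, fun n _ => ?_⟩⟩
  · simpa using hε.le
  · rw [map_zero, norm_zero]; positivity
  · rw [map_zero, norm_zero]; positivity

theorem Pr_add {σ : Y 𝕜 →L[𝕜] Y 𝕜} {τ τ' : Y 𝕜} (h : Pr σ τ) (h' : Pr σ τ') : Pr σ (τ + τ') := by
  intro ε hε
  obtain ⟨ν, hν⟩ := h (ε / 2) (by positivity)
  obtain ⟨ν', hν'⟩ := h' (ε / 2) (by positivity)
  refine ⟨max ν ν', fun m => ?_⟩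
  obtain ⟨w, h1, h2, h3⟩ := hν m
  obtain ⟨w', h1', h2', h3'⟩ := hν' m
  refine ⟨w + w', ?_, fun n hn => ?_, fun n hn => ?_⟩
  · have e1 : (σ ^ m) (w + w') - (τ + τ') = ((σ ^ m) w - τ) + ((σ ^ m) w' - τ') := by
      rw [map_add]; abel
    rw [e1]
    refine (norm_add_le _ _).trans ?_
    linarith
  · rw [map_add]
    refine (norm_add_le _ _).trans ?_
    have a1 : (1 / 2 : ℝ) ^ (m - n - ν) ≤ (1 / 2) ^ (m - n - max ν ν') :=
      pow_le_pow_of_le_one (by norm_num) (by norm_num) (by omega)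
    have a2 : (1 / 2 : ℝ) ^ (m - n - ν') ≤ (1 / 2) ^ (m - n - max ν ν') :=
      pow_le_pow_of_le_one (by norm_num) (by norm_num) (by omega)
    have b1 := h2 n (by omega)
    have b2 := h2' n (by omega)
    nlinarith
  · rw [map_add]
    refine (norm_add_le _ _).trans ?_
    have a1 : (1 / 2 : ℝ) ^ (n - m - ν) ≤ (1 / 2) ^ (n - m - max ν ν') :=
      pow_le_pow_of_le_one (by norm_num) (by norm_num) (by omega)
    have a2 : (1 / 2 : ℝ) ^ (n - m - ν') ≤ (1 / 2) ^ (n - m - max ν ν') :=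
      pow_le_pow_of_le_one (by norm_num) (by norm_num) (by omega)
    have b1 := h3 n (by omega)
    have b2 := h3' n (by omega)
    nlinarith

theorem Pr_smul {σ : Y 𝕜 →L[𝕜] Y 𝕜} {τ : Y 𝕜} (c : 𝕜) (h : Pr σ τ) : Pr σ (c • τ) := by
  by_cases hc : c = 0
  · rw [hc, zero_smul]; exact Pr_zero σ
  have hc0 : 0 < ‖c‖ := norm_pos_iff.2 hc
  intro ε hε
  obtain ⟨ν, hν⟩ := h (ε / ‖c‖) (by positivity)
  refine ⟨ν, fun m => ?_⟩
  obtain ⟨w, h1, h2, h3⟩ := hν m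
  refine ⟨c • w, ?_, fun n hn => ?_, fun n hn => ?_⟩
  · rw [map_smul, ← smul_sub, norm_smul]
    rw [le_div_iff₀ hc0] at h1
    linarith
  · rw [map_smul, norm_smul]
    have := h2 n hn
    calc ‖c‖ * ‖(σ ^ n) w‖ ≤ ‖c‖ * (ε / ‖c‖ * (1 / 2) ^ (m - n - ν)) := by gcongr
      _ = _ := by field_simp
  · rw [map_smul, norm_smul]
    have := h3 n hn
    calc ‖c‖ * ‖(σ ^ n) w‖ ≤ ‖c‖ * (ε / ‖c‖ * (1 / 2) ^ (n - m - ν)) := by gcongr
      _ = _ := by field_simp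

variable {σ : Y 𝕜 →L[𝕜] Y 𝕜} (hσ : ∀ x n, σ x n = SS 𝕜 (n + 1) (x (n + 1)))

include hσ in
theorem Pr_vertex (q : ℤ) (j : ℕ) : Pr σ (sg 𝕜 q (Gz 𝕜 q j)) := by
  intro ε hε
  obtain ⟨l, hl⟩ := exists_pow_lt_of_lt_one (show (0 : ℝ) < ε / (2 + j) by positivity)
    (show (1 / 2 : ℝ) < 1 by norm_num)
  have hl1 : (1 / 2 : ℝ) ^ l ≤ ε := by
    refine hl.le.trans (div_le_self hε.le ?_)
    have : (0 : ℝ) ≤ j := Nat.cast_nonneg j
    linarith
  have hl2 : (1 / 2 : ℝ) ^ l * (2 + j) ≤ ε := by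
    rw [lt_div_iff₀ (by positivity)] at hl
    exact hl.le
  set a : ℕ := q.toNat + l with ha
  set J : ℕ := 2 * (4 * 8 ^ j + 1 + a) with hJ
  refine ⟨J + (-q).toNat + q.toNat + l, fun m => ?_⟩
  obtain ⟨k, hk1, hkM, hpk, hok⟩ := child j a (q + m).toNat
  have hsw : sw k = J := by unfold sw; rw [hpk, hok]
  have hbt : (q + m : ℤ) ≤ bt k := by
    have := le_bt k
    omega
  refine ⟨lp.single 1 (q + m) (Gz 𝕜 (q + m) k), ?_, fun n hn => ?_, fun n hn => ?_⟩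
  · rw [sig_pow hσ, add_sub_cancel_right, ← sg_eq, ← map_sub, sg_norm, ← hpk]
    refine (Gz_child_norm hk1 q (by omega)).trans (le_trans ?_ hl1)
    exact pow_le_pow_of_le_one (by norm_num) (by norm_num) (by omega)
  · rw [sig_pow hσ, single_norm, Gz_valley hk1 _ (by omega) (by omega)]
    have e1 : (q + m - n : ℤ).toNat - sw k = (m - n - (J + (-q).toNat + q.toNat + l)) + l +
        ((q + m - n : ℤ).toNat - sw k - (m - n - (J + (-q).toNat + q.toNat + l)) - l) := by omega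
    rw [e1, pow_add, pow_add, mul_comm ε]
    have h1 : (1 / 2 : ℝ) ^ ((q + m - n : ℤ).toNat - sw k -
        (m - n - (J + (-q).toNat + q.toNat + l)) - l) ≤ 1 := pow_le_one₀ (by norm_num) (by norm_num)
    calc _ ≤ (1 / 2 : ℝ) ^ (m - n - (J + (-q).toNat + q.toNat + l)) * (1 / 2) ^ l * 1 := by gcongr
      _ ≤ _ := by
        rw [mul_one]
        gcongr
  · rw [sig_pow hσ, single_norm]
    refine (Gz_neg hk1 _ (by omega)).trans ?_
    rw [hpk]
    have e1 : (-(q + m - n : ℤ)).toNat = (n - m - (J + (-q).toNat + q.toNat + l)) + l +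
        ((-(q + m - n : ℤ)).toNat - (n - m - (J + (-q).toNat + q.toNat + l)) - l) := by omega
    rw [e1, pow_add, pow_add]
    have h1 : (1 / 2 : ℝ) ^ ((-(q + m - n : ℤ)).toNat -
        (n - m - (J + (-q).toNat + q.toNat + l)) - l) ≤ 1 := pow_le_one₀ (by norm_num) (by norm_num)
    calc _ ≤ (1 / 2 : ℝ) ^ (n - m - (J + (-q).toNat + q.toNat + l)) * (1 / 2) ^ l * 1 * (2 + j) := by
          gcongr
      _ = (1 / 2 : ℝ) ^ (n - m - (J + (-q).toNat + q.toNat + l)) * ((1 / 2) ^ l * (2 + j)) := by ring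
      _ ≤ (1 / 2 : ℝ) ^ (n - m - (J + (-q).toNat + q.toNat + l)) * ε := by gcongr
      _ = _ := by ring

/-- `Pr` as a submodule -/
def PrS (σ : Y 𝕜 →L[𝕜] Y 𝕜) : Submodule 𝕜 (Y 𝕜) where
  carrier := {τ | Pr σ τ}
  add_mem' := fun h h' => Pr_add h h'
  zero_mem' := Pr_zero σ
  smul_mem' := fun c _ h => Pr_smul c h

theorem e_mem (q : ℤ) (j : ℕ) : e 𝕜 j ∈ Submodule.span 𝕜 (range fun i => Gz 𝕜 q i) := by
  have hG : ∀ i, Gz 𝕜 q i ∈ Submodule.span 𝕜 (range fun i => Gz 𝕜 q i) := fun i =>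
    Submodule.subset_span ⟨i, rfl⟩
  have hG' : ∀ i, G 𝕜 q.toNat i ∈ Submodule.span 𝕜 (range fun i => Gz 𝕜 q i) := by
    intro i
    have hc : (((1 / 2 : ℝ) ^ (-q).toNat : ℝ) : 𝕜) ≠ 0 := by
      rw [RCLike.ofReal_ne_zero]; positivity
    have : G 𝕜 q.toNat i = (((1 / 2 : ℝ) ^ (-q).toNat : ℝ) : 𝕜)⁻¹ • Gz 𝕜 q i := by
      unfold Gz
      rw [smul_smul, inv_mul_cancel₀ hc, one_smul]
    rw [this]
    exact Submodule.smul_mem _ _ (hG i)
  by_cases h0 : j = 0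
  · subst h0
    rw [← G_zero (𝕜 := 𝕜) q.toNat]
    exact hG' 0
  · have hj : 1 ≤ j := by omega
    rcases le_or_gt (sw j) q.toNat with h | h
    · have hc : ((om q.toNat j : ℝ) : 𝕜) ≠ 0 := by
        rw [RCLike.ofReal_ne_zero]
        unfold om
        split_ifs <;> positivity
      have : e 𝕜 j = ((om q.toNat j : ℝ) : 𝕜)⁻¹ • G 𝕜 q.toNat j := by
        rw [G_late hj h, smul_smul, inv_mul_cancel₀ hc, one_smul]
      rw [this]
      exact Submodule.smul_mem _ _ (hG' j)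
    · have hc : (((1 / 2 : ℝ) ^ (sw j - 1 - q.toNat) : ℝ) : 𝕜) ≠ 0 := by
        rw [RCLike.ofReal_ne_zero]; positivity
      have : e 𝕜 j = (((1 / 2 : ℝ) ^ (sw j - 1 - q.toNat) : ℝ) : 𝕜)⁻¹ •
          (G 𝕜 q.toNat (par j) - G 𝕜 q.toNat j) := by
        rw [G_early hj h, sub_sub_cancel, smul_smul, inv_mul_cancel₀ hc, one_smul]
      rw [this]
      exact Submodule.smul_mem _ _ (Submodule.sub_mem _ (hG' _) (hG' _))

/-- the span of the unit vectors is dense -/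
theorem closure_top (M : Submodule 𝕜 (Y 𝕜)) (hM : ∀ q j, sg 𝕜 q (e 𝕜 j) ∈ M) :
    Dense (M : Set (Y 𝕜)) := by
  have hcl := M.isClosed_topologicalClosure
  have h1 : ∀ q v, sg 𝕜 q v ∈ M.topologicalClosure := by
    intro q v
    have h2 : HasSum (fun j => sg 𝕜 q (v j • e 𝕜 j)) (sg 𝕜 q v) := (sg 𝕜 q).hasSum (hasSum_e v)
    refine hcl.mem_of_tendsto h2 (Eventually.of_forall fun s => ?_)
    refine Submodule.sum_mem _ fun j _ => ?_
    rw [map_smul]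
    exact Submodule.smul_mem _ _ (M.le_topologicalClosure (hM q j))
  intro x
  have h3 : HasSum (fun q => sg 𝕜 q (x q)) x := lp.hasSum_single (p := 1) (by simp) x
  have h4 : x ∈ M.topologicalClosure := by
    refine hcl.mem_of_tendsto h3 (Eventually.of_forall fun s => ?_)
    exact Submodule.sum_mem _ fun q _ => h1 q _
  rwa [← SetLike.mem_coe, Submodule.topologicalClosure_coe] at h4

theorem Y_sep : TopologicalSpace.SeparableSpace (Y 𝕜) := by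
  have h1 : (range fun p : ℤ × ℕ => sg 𝕜 p.1 (e 𝕜 p.2)).Countable := countable_range _
  have h2 := (h1.isSeparable).span (R := 𝕜)
  have h3 := closure_top (Submodule.span 𝕜 (range fun p : ℤ × ℕ => sg 𝕜 p.1 (e 𝕜 p.2)))
    (fun q j => Submodule.subset_span ⟨(q, j), rfl⟩)
  have h4 := h2.closure
  rw [h3.closure_eq] at h4
  exact TopologicalSpace.isSeparable_univ_iff.1 h4

include hσ in
theorem fhc : ∃ x : Y 𝕜, ∀ U : Set (Y 𝕜), IsOpen U → U.Nonempty →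
    H342R3.FS.LD {n | (σ ^ n) x ∈ U} := by
  have := Y_sep (𝕜 := 𝕜)
  refine crit σ (PrS σ) (closure_top (PrS σ) fun q j => ?_) (fun τ hτ => hτ)
  have h1 := e_mem (𝕜 := 𝕜) q j
  have h2 : sg 𝕜 q (e 𝕜 j) ∈ (Submodule.span 𝕜 (range fun i => Gz 𝕜 q i)).map
      (sg 𝕜 q : E 𝕜 →ₗ[𝕜] Y 𝕜) := Submodule.mem_map_of_mem h1
  rw [Submodule.map_span] at h2
  refine (Submodule.span_le.2 ?_) h2
  rintro _ ⟨_, ⟨i, rfl⟩, rfl⟩
  exact Pr_vertex hσ q i

end Pool.Agent.Q201.TR
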