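import Pool.Agent.Q201.TR.C
set_option autoImplicit false

open Filter Topology Set
open scoped ENNReal
open Pool.Agent.Helper932.FHC (E e e_apply norm_e norm_eq_tsum exists_clm clm_norm_le clm_congr
  summable_norm_coord hasSum_e)

namespace Pool.Agent.Q201.TR

variable {𝕜 : Type} [RCLike 𝕜]

/-- evaluation -/
noncomputable def ev (𝕜 : Type) [RCLike 𝕜] (p : ℕ) : E 𝕜 →L[𝕜] 𝕜 :=
  LinearMap.mkContinuous
    { toFun := fun v => v p
      map_add' := fun v w => by rw [lp.coeFn_add, Pi.add_apply]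
      map_smul' := fun c v => by rw [lp.coeFn_smul, Pi.smul_apply]; rfl } 1
    (fun v => by
      rw [one_mul]
      exact lp.norm_apply_le_norm (by norm_num) v p)

theorem ev_apply (p : ℕ) (v : E 𝕜) : ev 𝕜 p v = v p := rfl

theorem Sp_coord (n p : ℕ) (z : E 𝕜) : HasSum (fun j => z j * (vv 𝕜 n j) p) ((Sp 𝕜 n z) p) := by
  have h1 : HasSum (fun j => ev 𝕜 p (Sp 𝕜 n (z j • e 𝕜 j))) (ev 𝕜 p (Sp 𝕜 n z)) :=
    ((ev 𝕜 p).comp (Sp 𝕜 n)).hasSum (hasSum_e z)
  have h2 : (fun j => ev 𝕜 p (Sp 𝕜 n (z j • e 𝕜 j))) = fun j => z j * (vv 𝕜 n j) p := by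
    funext j
    rw [map_smul, Sp_e, map_smul, ev_apply, smul_eq_mul]
  rw [h2] at h1
  exact h1

theorem vv_coord (n j p : ℕ) : (vv 𝕜 n j) p =
    (if p = j then ((lam n j : ℝ) : 𝕜) else 0) + if 1 ≤ j ∧ sw j = n ∧ par j = p then 1 else 0 := by
  unfold vv
  rw [lp.coeFn_add, Pi.add_apply, lp.coeFn_smul, Pi.smul_apply, e_apply, smul_eq_mul]
  congr 1
  · split_ifs <;> simp
  · by_cases h : 1 ≤ j ∧ sw j = n
    · rw [if_pos h, e_apply]
      by_cases h2 : p = par j
      · rw [if_pos h2, if_pos ⟨h.1, h.2, h2.symm⟩]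
      · rw [if_neg h2, if_neg (fun h3 => h2 h3.2.2.symm)]
    · rw [if_neg h, if_neg (fun h3 => h ⟨h3.1, h3.2.1⟩)]
      rfl

/-- up to the return time a vertex receives nothing -/
theorem Sp_quiet {n p : ℕ} (h : n ≤ rt p) (z : E 𝕜) :
    (Sp 𝕜 n z) p = ((lam n p : ℝ) : 𝕜) * z p := by
  have h1 := Sp_coord n p z
  have h2 : HasSum (fun j => z j * (vv 𝕜 n j) p) (z p * (vv 𝕜 n p) p) := by
    refine hasSum_single p fun j hj => ?_
    rw [vv_coord, if_neg (fun h3 => hj h3.symm), if_neg, add_zero, mul_zero]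
    rintro ⟨h4, h5, h6⟩
    have := rt_lt_sw j
    rw [h6] at this
    omega
  rw [h1.unique h2, vv_coord, if_pos rfl, if_neg, add_zero, mul_comm]
  rintro ⟨h4, h5, h6⟩
  have := par_lt h4
  omega

/-- after the return time -/
theorem Sp_loud {n p : ℕ} (h : rt p < n) (z : E 𝕜) :
    ‖(Sp 𝕜 n z) p‖ₑ ≤ ‖z p‖ₑ + ∑' j, if 1 ≤ j ∧ sw j = n ∧ par j = p then ‖z j‖ₑ else 0 := by
  have h1 := Sp_coord n p z
  rw [← h1.tsum_eq]
  refine enorm_tsum_le_tsum_enorm.trans ?_
  have h2 : ∀ j, ‖z j * (vv 𝕜 n j) p‖ₑ ≤ (if j = p then ‖z p‖ₑ else 0) +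
      (if 1 ≤ j ∧ sw j = n ∧ par j = p then ‖z j‖ₑ else 0) := by
    intro j
    rw [vv_coord, mul_add]
    refine (enorm_add_le _ _).trans ?_
    gcongr ?_ + ?_
    · by_cases hj : p = j
      · subst hj
        rw [if_pos rfl, if_pos rfl, lam_late h]
        simp
      · rw [if_neg hj, if_neg (fun h3 => hj h3.symm)]
        simp
    · split_ifs <;> simp
  refine (ENNReal.tsum_le_tsum h2).trans ?_
  rw [ENNReal.tsum_add, tsum_ite_eq]

variable {y : ℕ → E 𝕜} (hy : ∀ n, y n = Sp 𝕜 (n + 1) (y (n + 1)))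

include hy in
/-- through the valley -/
theorem valley {k : ℕ} (hk : 1 ≤ k) : (y (sw k)) k = (y (rt k)) k := by
  have key : ∀ d, d ≤ rt k - sw k → (y (rt k - d)) k = ((om (rt k - d) k : ℝ) : 𝕜) * (y (rt k)) k := by
    intro d
    induction d with
    | zero =>
      intro _
      have h1 := bt_lt_rt hk
      unfold om
      rw [if_neg (by omega), Nat.sub_zero, Nat.sub_self, pow_zero, RCLike.ofReal_one, one_mul]
    | succ d ih =>
      intro hd
      have h1 := ih (by omega)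
      have e1 : rt k - d = (rt k - (d + 1)) + 1 := by omega
      rw [hy (rt k - (d + 1)), ← e1, Sp_quiet (by omega), h1, ← mul_assoc, ← RCLike.ofReal_mul]
      congr 2
      rw [mul_comm]
      have h2 := om_step (n := rt k - (d + 1)) hk (by omega)
      rw [← e1] at h2
      exact h2
  have h1 := sw_lt_rt hk
  have h2 := key (rt k - sw k) le_rfl
  have e1 : rt k - (rt k - sw k) = sw k := by omega
  rw [e1] at h2
  rw [h2]
  have h3 := sw_lt_bt hk
  unfold om
  rw [if_pos (by omega), Nat.sub_self, pow_zero, RCLike.ofReal_one, one_mul]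

include hy in
theorem root_quiet : (y 0) 0 = (y (rt 0)) 0 := by
  have key : ∀ d, d ≤ rt 0 → (y (rt 0 - d)) 0 = (y (rt 0)) 0 := by
    intro d
    induction d with
    | zero => intro _; rfl
    | succ d ih =>
      intro hd
      have e1 : rt 0 - d = (rt 0 - (d + 1)) + 1 := by omega
      rw [hy (rt 0 - (d + 1)), ← e1, Sp_quiet (by omega), ih (by omega)]
      unfold lam
      simp
  have := key (rt 0) le_rfl
  rwa [Nat.sub_self] at this

include hy in
theorem partial_bound (p N : ℕ) : ‖(y (rt p)) p‖ₑ ≤ ‖(y (rt p + N)) p‖ₑ +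
    ∑' j, if 1 ≤ j ∧ sw j ≤ rt p + N ∧ par j = p then ‖(y (rt j)) j‖ₑ else 0 := by
  induction N with
  | zero => exact le_self_add
  | succ N ih =>
    refine ih.trans ?_
    have h1 : ‖(y (rt p + N)) p‖ₑ ≤ ‖(y (rt p + (N + 1))) p‖ₑ +
        ∑' j, if 1 ≤ j ∧ sw j = rt p + N + 1 ∧ par j = p then ‖(y (rt j)) j‖ₑ else 0 := by
      rw [hy (rt p + N)]
      refine (Sp_loud (by omega) _).trans ?_
      gcongr ?_ + ?_
      · exact le_of_eq rfl
      · refine ENNReal.tsum_le_tsum fun j => ?_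
        by_cases h : 1 ≤ j ∧ sw j = rt p + N + 1 ∧ par j = p
        · rw [if_pos h, if_pos h, ← h.2.1, valley hy h.1]
        · rw [if_neg h, if_neg h]
    refine (add_le_add_left h1 _).trans ?_
    rw [add_assoc, ← ENNReal.tsum_add]
    refine add_le_add le_rfl (ENNReal.tsum_le_tsum fun j => ?_)
    by_cases h2 : 1 ≤ j ∧ sw j = rt p + N + 1 ∧ par j = p
    · rw [if_pos h2, if_neg (by omega), if_pos (by omega), add_zero]
    · rw [if_neg h2, zero_add]
      by_cases h3 : 1 ≤ j ∧ sw j ≤ rt p + N ∧ par j = p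
      · rw [if_pos h3, if_pos (by omega)]
      · rw [if_neg h3]
        exact zero_le

include hy in
theorem root_zero (hs : Summable fun n => ‖y n‖) : (y 0) 0 = 0 := by
  have hfin : ∑' n, ‖y n‖ₑ ≠ ⊤ := by
    have := (ENNReal.ofReal_tsum_of_nonneg (fun n => norm_nonneg (y n)) hs)
    simp_rw [ofReal_norm] at this
    rw [← this]
    exact ENNReal.ofReal_ne_top
  have hcoord : ∀ n p, ‖(y n) p‖ₑ ≤ ‖y n‖ₑ := by
    intro n p
    rw [← ofReal_norm, ← ofReal_norm]
    exact ENNReal.ofReal_le_ofReal (lp.norm_apply_le_norm (by norm_num) (y n) p)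
  have htend : Tendsto (fun n => ‖y n‖ₑ) atTop (𝓝 0) := by
    have := hs.tendsto_atTop_zero
    have h2 := ENNReal.tendsto_ofReal this
    simp_rw [ofReal_norm] at h2
    rwa [ENNReal.ofReal_zero] at h2
  set b : ℕ → ℝ≥0∞ := fun j => ‖(y (rt j)) j‖ₑ with hb
  have hb1 : ∀ p, b p ≤ ∑' j, if 1 ≤ j ∧ par j = p then b j else 0 := by
    intro p
    have h1 : ∀ N, b p ≤ ‖y (rt p + N)‖ₑ + ∑' j, if 1 ≤ j ∧ par j = p then b j else 0 := by
      intro N
      refine (partial_bound hy p N).trans ?_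
      gcongr ?_ + ?_
      · exact hcoord _ _
      · refine ENNReal.tsum_le_tsum fun j => ?_
        by_cases h : 1 ≤ j ∧ sw j ≤ rt p + N ∧ par j = p
        · rw [if_pos h, if_pos ⟨h.1, h.2.2⟩]
        · rw [if_neg h]; exact zero_le
    have h2 : Tendsto (fun N => ‖y (rt p + N)‖ₑ + ∑' j, if 1 ≤ j ∧ par j = p then b j else 0) atTop
        (𝓝 (0 + ∑' j, if 1 ≤ j ∧ par j = p then b j else 0)) := by
      refine Tendsto.add ?_ tendsto_const_nhds
      have h3 := (tendsto_add_atTop_iff_nat (rt p)).2 htend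
      refine h3.congr fun N => ?_
      rw [add_comm]
    rw [zero_add] at h2
    exact ge_of_tendsto' h2 h1
  have hbfin : ∑' j, b j ≠ ⊤ := by
    refine ne_top_of_le_ne_top hfin ?_
    calc ∑' j, b j ≤ ∑' j, ‖y (rt j)‖ₑ := ENNReal.tsum_le_tsum fun j => hcoord _ _
      _ ≤ ∑' n, ‖y n‖ₑ := ENNReal.tsum_comp_le_tsum_of_injective (fun k l h => rt_inj h) _
  have h1 : ∑' p, b p ≤ ∑' j, if 1 ≤ j then b j else 0 := by
    calc ∑' p, b p ≤ ∑' p, ∑' j, if 1 ≤ j ∧ par j = p then b j else 0 := ENNReal.tsum_le_tsum hb1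
      _ = ∑' j, ∑' p, if 1 ≤ j ∧ par j = p then b j else 0 := ENNReal.tsum_comm
      _ = ∑' j, if 1 ≤ j then b j else 0 := by
        refine tsum_congr fun j => ?_
        by_cases hj : 1 ≤ j
        · simp only [hj, true_and, if_true]
          rw [tsum_eq_single (par j)]
          · rw [if_pos rfl]
          · intro p hp
            rw [if_neg (fun h => hp h.symm)]
        · simp [hj]
  have h2 : ∑' p, b p = b 0 + ∑' j, if 1 ≤ j then b j else 0 := by
    have e1 : ∀ j, b j = (if j = 0 then b 0 else 0) + if 1 ≤ j then b j else 0 := by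
      intro j
      by_cases hj : j = 0
      · subst hj; simp
      · rw [if_neg hj, if_pos (by omega), zero_add]
    calc ∑' p, b p = ∑' j, ((if j = 0 then b 0 else 0) + if 1 ≤ j then b j else 0) :=
          tsum_congr e1
      _ = _ := by rw [ENNReal.tsum_add, tsum_ite_eq]
  have h3 : ∑' j, (if 1 ≤ j then b j else 0) ≠ ⊤ := by
    refine ne_top_of_le_ne_top hbfin ?_
    rw [h2]
    exact le_add_self
  have h4 : b 0 = 0 := by
    rw [h2] at h1
    by_contra h5
    have h6 : (∑' j, if 1 ≤ j then b j else 0) < b 0 + ∑' j, if 1 ≤ j then b j else 0 := by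
      rw [add_comm]
      exact ENNReal.lt_add_right h3 h5
    exact absurd h1 (not_le.2 h6)
  rw [root_quiet hy]
  simpa [hb] using h4

variable {σ : Y 𝕜 →L[𝕜] Y 𝕜} (hσ : ∀ x n, σ x n = SS 𝕜 (n + 1) (x (n + 1)))

include hσ in
theorem periodic_root {x : Y 𝕜} {k : ℕ} (hk : 1 ≤ k) (hx : (σ ^ k) x = x) : (x 0) 0 = 0 := by
  have hper : ∀ a b : ℕ, (σ ^ (a + k * b)) x = (σ ^ a) x := by
    intro a b
    induction b with
    | zero => rw [Nat.mul_zero, Nat.add_zero]
    | succ b ih =>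
      have e1 : a + k * (b + 1) = (a + k * b) + k := by ring
      rw [e1, pow_add]
      change (σ ^ (a + k * b)) ((σ ^ k) x) = _
      rw [hx, ih]
  set y : ℕ → E 𝕜 := fun n => ((σ ^ (k * n - n)) x) (n : ℤ) with hy
  have hy1 : ∀ n, y n = Sp 𝕜 (n + 1) (y (n + 1)) := by
    intro n
    have h1 : n ≤ k * n := Nat.le_mul_of_pos_left n hk
    have h2 : n + 1 ≤ k * (n + 1) := Nat.le_mul_of_pos_left (n + 1) hk
    have e1 : k * (n + 1) - (n + 1) + 1 = (k * n - n) + k * 1 := by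
      rw [Nat.mul_add]
      omega
    have h3 : y n = ((σ ^ ((k * (n + 1) - (n + 1)) + 1)) x) (n : ℤ) := by
      rw [e1, hper]
    rw [h3, pow_succ']
    change (σ ((σ ^ (k * (n + 1) - (n + 1))) x)) (n : ℤ) = _
    rw [hσ, SS_pos (by omega)]
    have e2 : ((n : ℤ) + 1).toNat = n + 1 := by omega
    rw [e2]
    simp only [hy]
    push_cast
    rfl
  have hs : Summable fun n => ‖y n‖ := by
    have h1 : Summable fun n : ℕ => ∑ r ∈ Finset.range k, ‖((σ ^ r) x) (n : ℤ)‖ := by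
      refine summable_sum fun r _ => ?_
      exact (Y_summable ((σ ^ r) x)).comp_injective Nat.cast_injective
    refine Summable.of_nonneg_of_le (fun _ => norm_nonneg _) (fun n => ?_) h1
    have h2 : (σ ^ (k * n - n)) x = (σ ^ ((k * n - n) % k)) x := by
      conv_lhs => rw [← Nat.mod_add_div (k * n - n) k]
      rw [hper]
    simp only [hy]
    rw [h2]
    exact Finset.single_le_sum (f := fun r => ‖((σ ^ r) x) (n : ℤ)‖) (fun _ _ => norm_nonneg _)
      (Finset.mem_range.2 (Nat.mod_lt _ hk))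
  have h0 := root_zero hy1 hs
  have e0 : y 0 = x 0 := by
    simp only [hy, Nat.mul_zero, Nat.sub_zero, pow_zero]
    rfl
  rwa [e0] at h0

include hσ in
theorem not_dense : ¬ Dense {x : Y 𝕜 | ∃ k : ℕ, 1 ≤ k ∧ (σ ^ k) x = x} := by
  intro hd
  have := hd.exists_dist_lt (lp.single 1 (0 : ℤ) (e 𝕜 0) : Y 𝕜) (show (0 : ℝ) < 1 by norm_num)
  obtain ⟨x, ⟨k, hk, hx⟩, hdist⟩ := this
  have h0 := periodic_root hσ hk hx
  rw [dist_eq_norm] at hdist
  have h1 : ‖((lp.single 1 (0 : ℤ) (e 𝕜 0) - x : Y 𝕜) 0)‖ ≤ ‖(lp.single 1 (0 : ℤ) (e 𝕜 0) - x : Y 𝕜)‖ :=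
    lp.norm_apply_le_norm (by norm_num) _ _
  have h2 : ‖(((lp.single 1 (0 : ℤ) (e 𝕜 0) - x : Y 𝕜) 0) : E 𝕜) 0‖ ≤
      ‖((lp.single 1 (0 : ℤ) (e 𝕜 0) - x : Y 𝕜) 0)‖ := lp.norm_apply_le_norm (by norm_num) _ _
  have h3 : (((lp.single 1 (0 : ℤ) (e 𝕜 0) - x : Y 𝕜) 0) : E 𝕜) 0 = 1 := by
    rw [lp.coeFn_sub, Pi.sub_apply, lp.coeFn_sub, Pi.sub_apply, h0, sub_zero, single_apply',
      if_pos rfl, e_apply, if_pos rfl]
  rw [h3, norm_one] at h2
  linarith

end Pool.Agent.Q201.TR
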