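import Pool.Agent.Q201.TR.D
import Pool.Agent.Q201.TR.F

/-!
# The operator
-/

set_option autoImplicit false

open Filter Topology Set
open Pool.Agent.Helper932.FHC (E)

namespace Pool.Agent.Q201.TR

theorem main (𝕜 : Type) [RCLike 𝕜] : ∃ σ : Y 𝕜 → Y 𝕜,
    (∀ x n, σ x n = SS 𝕜 (n + 1) (x (n + 1))) ∧
    (∃ x, ∀ U : Set (Y 𝕜), IsOpen U → U.Nonempty → H342R3.FS.LD {n | σ^[n] x ∈ U}) ∧
    ¬ Dense {x : Y 𝕜 | ∃ k : ℕ, 1 ≤ k ∧ σ^[k] x = x} := by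
  obtain ⟨σ, hσ⟩ := exists_shift (𝕜 := 𝕜) (fun n => (SS 𝕜 n).toContinuousLinearMap) SS_norm
  have hσ' : ∀ x n, σ x n = SS 𝕜 (n + 1) (x (n + 1)) := hσ
  have hit : ∀ (n : ℕ) (x : Y 𝕜), (σ ^ n) x = (⇑σ)^[n] x := by
    intro n
    induction n with
    | zero => intro x; rfl
    | succ n ih =>
      intro x
      rw [pow_succ]
      change (σ ^ n) (σ x) = _
      rw [ih, Function.iterate_succ_apply]
  refine ⟨⇑σ, hσ', ?_, ?_⟩
  · obtain ⟨x, hx⟩ := fhc hσ'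
    refine ⟨x, fun U hU hne => ?_⟩
    have := hx U hU hne
    simp_rw [hit] at this
    exact this
  · have := not_dense hσ'
    simp_rw [hit] at this
    exact this

end Pool.Agent.Q201.TR
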